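import Pool.Agent.TH634.LC.Series

/-! # The reciprocal-lcm series of two primes is a product (helper634) -/

set_option autoImplicit false

open Finset

namespace Pool.Agent.TH634.LC

section

variable {p q : ℕ}

theorem inner (hp : 2 ≤ p) (hq : 2 ≤ q) (i : ℕ) :
    ∑' j : ℕ, (if p ^ i < q ^ j then (1 / (p : ℝ)) ^ i * (1 / (q : ℝ)) ^ j else 0) =
      ft p q i * (1 / ((q : ℝ) - 1)) := by
  obtain ⟨hy0, hy1⟩ := inv_bd hq
  have hq2 : (2 : ℝ) ≤ q := by exact_mod_cast hq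
  set L := Nat.log q (p ^ i) with hL
  have hiff : ∀ j, p ^ i < q ^ j ↔ L < j := by
    intro j
    rw [hL]
    exact (Nat.log_lt_iff_lt_pow (by omega) (by positivity)).symm
  have hs : Summable fun j : ℕ =>
      (if p ^ i < q ^ j then (1 / (p : ℝ)) ^ i * (1 / (q : ℝ)) ^ j else 0) := by
    refine Summable.of_nonneg_of_le (fun j => ?_) (fun j => ?_)
      ((summable_geo hq).mul_left ((1 / (p : ℝ)) ^ i))
    · split_ifs
      · positivity
      · exact le_rfl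
    · split_ifs
      · exact le_rfl
      · positivity
  rw [← hs.sum_add_tsum_nat_add (L + 1)]
  have h0 : ∑ j ∈ range (L + 1),
      (if p ^ i < q ^ j then (1 / (p : ℝ)) ^ i * (1 / (q : ℝ)) ^ j else 0) = 0 := by
    refine sum_eq_zero fun j hj => ?_
    rw [if_neg]
    rw [hiff]
    have := mem_range.1 hj
    omega
  have h1 : ∀ j, (if p ^ i < q ^ (j + (L + 1)) then
      (1 / (p : ℝ)) ^ i * (1 / (q : ℝ)) ^ (j + (L + 1)) else 0) =
      ((1 / (p : ℝ)) ^ i * (1 / (q : ℝ)) ^ (L + 1)) * (1 / (q : ℝ)) ^ j := by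
    intro j
    rw [if_pos ((hiff _).2 (by omega)), pow_add]
    ring
  rw [h0, zero_add]
  simp_rw [h1]
  rw [tsum_mul_left, tsum_geometric_of_lt_one hy0.le (by linarith)]
  unfold ft
  rw [← hL, pow_succ]
  have hq0 : (q : ℝ) ≠ 0 := by positivity
  have hq1 : (q : ℝ) - 1 ≠ 0 := by linarith
  have h2 : (1 - 1 / (q : ℝ))⁻¹ = q / (q - 1) := by
    rw [inv_eq_one_div, div_eq_div_iff (by linarith) hq1]
    field_simp
  rw [h2]
  field_simp

theorem summable_cone (hp : 2 ≤ p) (hq : 2 ≤ q) : Summable fun z : ℕ × ℕ =>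
      (if p ^ z.1 < q ^ z.2 then (1 / (p : ℝ)) ^ z.1 * (1 / (q : ℝ)) ^ z.2 else 0) := by
  have h := (summable_geo hp).mul_of_nonneg (summable_geo hq) (fun i => by positivity)
    (fun j => by positivity)
  refine Summable.of_nonneg_of_le (fun j => ?_) (fun j => ?_) h
  · split_ifs
    · positivity
    · exact le_rfl
  · split_ifs
    · exact le_rfl
    · positivity

theorem cone (hp : 2 ≤ p) (hq : 2 ≤ q) :
    ∑' z : ℕ × ℕ, (if p ^ z.1 < q ^ z.2 then (1 / (p : ℝ)) ^ z.1 * (1 / (q : ℝ)) ^ z.2 else 0) =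
      (∑' i, ft p q i) * (1 / ((q : ℝ) - 1)) := by
  rw [(summable_cone hp hq).tsum_prod]
  simp_rw [inner hp hq]
  rw [tsum_mul_right]

theorem cone_swap (hp : 2 ≤ p) (hq : 2 ≤ q) :
    (Summable fun z : ℕ × ℕ =>
      (if q ^ z.2 < p ^ z.1 then (1 / (q : ℝ)) ^ z.2 * (1 / (p : ℝ)) ^ z.1 else 0)) ∧
    ∑' z : ℕ × ℕ, (if q ^ z.2 < p ^ z.1 then (1 / (q : ℝ)) ^ z.2 * (1 / (p : ℝ)) ^ z.1 else 0) =
      (∑' i, ft q p i) * (1 / ((p : ℝ) - 1)) := by
  constructor
  · have h := (Equiv.prodComm ℕ ℕ).summable_iff.2 (summable_cone hq hp)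
    exact h
  · have h := (Equiv.prodComm ℕ ℕ).tsum_eq (fun z : ℕ × ℕ =>
      (if q ^ z.1 < p ^ z.2 then (1 / (q : ℝ)) ^ z.1 * (1 / (p : ℝ)) ^ z.2 else 0))
    exact h.trans (cone hq hp)

theorem relation (hp : p.Prime) (hq : q.Prime) (hpq : p ≠ q) :
    ((p : ℝ) - 1) * (∑' i, ft p q i) + ((q : ℝ) - 1) * (∑' i, ft q p i) = p + q - 1 := by
  have hp2 := hp.two_le
  have hq2 := hq.two_le
  have hp2R : (2 : ℝ) ≤ p := by exact_mod_cast hp2
  have hq2R : (2 : ℝ) ≤ q := by exact_mod_cast hq2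
  obtain ⟨hx0, hx1⟩ := inv_bd hp2
  obtain ⟨hy0, hy1⟩ := inv_bd hq2
  have h1 := cone hp2 hq2
  obtain ⟨hs2, h2⟩ := cone_swap hp2 hq2
  have hs1 := summable_cone hp2 hq2
  have hF : ∀ z : ℕ × ℕ, (1 / (p : ℝ)) ^ z.1 * (1 / (q : ℝ)) ^ z.2 =
      (if p ^ z.1 < q ^ z.2 then (1 / (p : ℝ)) ^ z.1 * (1 / (q : ℝ)) ^ z.2 else 0) +
      (if q ^ z.2 < p ^ z.1 then (1 / (q : ℝ)) ^ z.2 * (1 / (p : ℝ)) ^ z.1 else 0) +
      (if z = (0, 0) then (1 : ℝ) else 0) := by
    rintro ⟨i, j⟩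
    simp only [Prod.mk.injEq]
    rcases lt_trichotomy (p ^ i) (q ^ j) with h | h | h
    · have h3 : ¬ (i = 0 ∧ j = 0) := by
        rintro ⟨rfl, rfl⟩
        simp at h
      rw [if_pos h, if_neg (by omega), if_neg h3]
      ring
    · have h3 : i = 0 := by
        by_contra h4
        have h5 : p ∣ q ^ j := by rw [← h]; exact dvd_pow_self p h4
        exact hpq ((Nat.prime_dvd_prime_iff_eq hp hq).1 (hp.dvd_of_dvd_pow h5))
      have h4 : j = 0 := by
        by_contra h4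
        have h5 : q ∣ p ^ i := by rw [h]; exact dvd_pow_self q h4
        exact hpq ((Nat.prime_dvd_prime_iff_eq hq hp).1 (hq.dvd_of_dvd_pow h5)).symm
      subst h3 h4
      simp
    · have h3 : ¬ (i = 0 ∧ j = 0) := by
        rintro ⟨rfl, rfl⟩
        simp at h
      rw [if_neg (by omega), if_pos h, if_neg h3]
      ring
  have hs0 : Summable fun z : ℕ × ℕ => (if z = (0, 0) then (1 : ℝ) else 0) :=
    (hasSum_ite_eq (0, 0) (1 : ℝ)).summable
  have htot : ∑' z : ℕ × ℕ, (1 / (p : ℝ)) ^ z.1 * (1 / (q : ℝ)) ^ z.2 =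
      (1 - 1 / (p : ℝ))⁻¹ * (1 - 1 / (q : ℝ))⁻¹ := by
    rw [← tsum_geometric_of_lt_one hx0.le (by linarith),
      ← tsum_geometric_of_lt_one hy0.le (by linarith)]
    refine ((summable_geo hp2).tsum_mul_tsum (summable_geo hq2) ?_).symm
    exact (summable_geo hp2).mul_of_nonneg (summable_geo hq2) (fun i => by positivity)
      (fun j => by positivity)
  rw [tsum_congr hF] at htot
  have h3 : ∑' z : ℕ × ℕ, (if z = (0, 0) then (1 : ℝ) else 0) = 1 :=
    (hasSum_ite_eq (0, 0) (1 : ℝ)).tsum_eq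
  rw [(hs1.add hs2).tsum_add hs0, hs1.tsum_add hs2, h1, h2, h3] at htot
  have hp0 : (p : ℝ) ≠ 0 := by positivity
  have hq0 : (q : ℝ) ≠ 0 := by positivity
  have hp1 : (p : ℝ) - 1 ≠ 0 := by linarith
  have hq1 : (q : ℝ) - 1 ≠ 0 := by linarith
  have e1 : (1 - 1 / (p : ℝ))⁻¹ = p / (p - 1) := by
    rw [inv_eq_one_div, div_eq_div_iff (by linarith) hp1]
    field_simp
  have e2 : (1 - 1 / (q : ℝ))⁻¹ = q / (q - 1) := by
    rw [inv_eq_one_div, div_eq_div_iff (by linarith) hq1]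
    field_simp
  rw [e1, e2] at htot
  field_simp at htot
  linarith

theorem mem_iff (hp : p.Prime) (hq : q.Prime) (hpq : p ≠ q) (m : ℕ) :
    (0 < m ∧ m.primeFactors ⊆ {p, q}) ↔ ∃ z : ℕ × ℕ, p ^ z.1 * q ^ z.2 = m := by
  constructor
  · rintro ⟨h0, h1⟩
    refine ⟨(m.factorization p, m.factorization q), ?_⟩
    have h2 := Nat.prod_factorization_pow_eq_self h0.ne'
    have h3 : m.factorization.prod (fun a b => a ^ b) =
        ∏ x ∈ ({p, q} : Finset ℕ), x ^ (m.factorization x) :=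
      Finsupp.prod_of_support_subset _ (by simpa using h1) _ (by simp)
    rw [h3, Finset.prod_pair hpq] at h2
    exact h2
  · rintro ⟨⟨a, b⟩, rfl⟩
    refine ⟨Nat.mul_pos (Nat.pow_pos hp.pos) (Nat.pow_pos hq.pos), ?_⟩
    intro r hr
    have hrp := Nat.prime_of_mem_primeFactors hr
    have hrd := Nat.dvd_of_mem_primeFactors hr
    rw [Finset.mem_insert, Finset.mem_singleton]
    rcases (Nat.Prime.dvd_mul hrp).1 hrd with h | h
    · exact Or.inl ((Nat.prime_dvd_prime_iff_eq hrp hp).1 (hrp.dvd_of_dvd_pow h))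
    · exact Or.inr ((Nat.prime_dvd_prime_iff_eq hrp hq).1 (hrp.dvd_of_dvd_pow h))

theorem psi_inj (hp : p.Prime) (hq : q.Prime) (hpq : p ≠ q) :
    Function.Injective fun z : ℕ × ℕ => p ^ z.1 * q ^ z.2 := by
  have hle : ∀ {a b c d : ℕ}, p ^ a * q ^ b = p ^ c * q ^ d → a ≤ c := by
    intro a b c d h
    have h1 : p ^ a ∣ p ^ c * q ^ d := by rw [← h]; exact Dvd.intro _ rfl
    have h2 : Nat.Coprime (p ^ a) (q ^ d) :=
      Nat.Coprime.pow _ _ ((Nat.coprime_primes hp hq).2 hpq)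
    exact (Nat.pow_dvd_pow_iff_le_right hp.one_lt).1 (h2.dvd_of_dvd_mul_right h1)
  have hle' : ∀ {a b c d : ℕ}, p ^ a * q ^ b = p ^ c * q ^ d → b ≤ d := by
    intro a b c d h
    have h1 : q ^ b ∣ p ^ c * q ^ d := by rw [← h]; exact Dvd.intro_left _ rfl
    have h2 : Nat.Coprime (q ^ b) (p ^ c) :=
      Nat.Coprime.pow _ _ ((Nat.coprime_primes hq hp).2 hpq.symm)
    exact (Nat.pow_dvd_pow_iff_le_right hq.one_lt).1 (h2.dvd_of_dvd_mul_left h1)
  rintro ⟨a, b⟩ ⟨c, d⟩ h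
  simp only at h
  rw [Prod.mk.injEq]
  exact ⟨le_antisymm (hle h) (hle h.symm), le_antisymm (hle' h) (hle' h.symm)⟩

theorem log_mul (hp : p.Prime) (hq : 0 < q) (i j : ℕ) :
    Nat.log p (p ^ i * q ^ j) = i + Nat.log p (q ^ j) := by
  induction i with
  | zero => simp
  | succ i ih =>
    have h1 : p ^ (i + 1) * q ^ j = p ^ i * q ^ j * p := by ring
    rw [h1, Nat.log_mul_base hp.one_lt (by have := hp.pos; positivity), ih]
    ring

theorem lcm_eq (hp : p.Prime) (hq : q.Prime) (hpq : p ≠ q) (n : ℕ) :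
    (Finset.range (n + 1)).lcm
      (fun i => Nat.nth (fun m : ℕ => 0 < m ∧ m.primeFactors ⊆ {p, q}) i) =
    p ^ Nat.log p (Nat.nth (fun m : ℕ => 0 < m ∧ m.primeFactors ⊆ {p, q}) n) *
      q ^ Nat.log q (Nat.nth (fun m : ℕ => 0 < m ∧ m.primeFactors ⊆ {p, q}) n) := by
  set U : ℕ → Prop := fun m : ℕ => 0 < m ∧ m.primeFactors ⊆ {p, q} with hU
  have hinf : (setOf U).Infinite := by
    refine Set.infinite_of_injective_forall_mem (f := fun k : ℕ => p ^ k)
      (Nat.pow_right_injective hp.two_le) fun k => ?_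
    exact (mem_iff hp hq hpq _).2 ⟨(k, 0), by simp⟩
  have hmono : StrictMono (Nat.nth U) := Nat.nth_strictMono hinf
  have hrange : Set.range (Nat.nth U) = setOf U := Nat.range_nth_of_infinite hinf
  set m := Nat.nth U n with hm
  have hmU : U m := Nat.nth_mem_of_infinite hinf n
  have hm0 : 0 < m := hmU.1
  refine Nat.dvd_antisymm ?_ ?_
  · refine Finset.lcm_dvd fun i hi => ?_
    have hi' : i ≤ n := by
      have := Finset.mem_range.1 hi
      omega
    have h1 : U (Nat.nth U i) := Nat.nth_mem_of_infinite hinf i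
    obtain ⟨⟨a, b⟩, hab⟩ := (mem_iff hp hq hpq _).1 h1
    have h2 : Nat.nth U i ≤ m := hmono.monotone hi'
    simp only at hab
    rw [← hab] at h2 ⊢
    refine Nat.mul_dvd_mul (pow_dvd_pow _ ?_) (pow_dvd_pow _ ?_)
    · refine (Nat.le_log_iff_pow_le hp.one_lt hm0.ne').2 (le_trans ?_ h2)
      exact Nat.le_mul_of_pos_right _ (Nat.pow_pos hq.pos)
    · refine (Nat.le_log_iff_pow_le hq.one_lt hm0.ne').2 (le_trans ?_ h2)
      exact Nat.le_mul_of_pos_left _ (Nat.pow_pos hp.pos)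
  · have hmem : ∀ k, U k → k ≤ m → k ∣ (Finset.range (n + 1)).lcm (fun i => Nat.nth U i) := by
      intro k hk hkm
      have : k ∈ Set.range (Nat.nth U) := by
        rw [hrange]
        exact hk
      obtain ⟨i, rfl⟩ := this
      have hi : i ≤ n := hmono.le_iff_le.1 hkm
      exact Finset.dvd_lcm (f := fun i => Nat.nth U i) (Finset.mem_range.2 (by omega))
    refine Nat.Coprime.mul_dvd_of_dvd_of_dvd
      (Nat.Coprime.pow _ _ ((Nat.coprime_primes hp hq).2 hpq)) ?_ ?_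
    · exact hmem _ ((mem_iff hp hq hpq _).2 ⟨(Nat.log p m, 0), by simp⟩)
        (Nat.pow_log_le_self p hm0.ne')
    · exact hmem _ ((mem_iff hp hq hpq _).2 ⟨(0, Nat.log q m), by simp⟩)
        (Nat.pow_log_le_self q hm0.ne')

theorem sum_eq (hp : p.Prime) (hq : q.Prime) (hpq : p ≠ q) :
    (∑' n : ℕ, (1 : ℝ) / (((Finset.range (n + 1)).lcm
      (fun i => Nat.nth (fun m : ℕ => 0 < m ∧ m.primeFactors ⊆ {p, q}) i) : ℕ) : ℝ)) =
    (∑' i, ft p q i) * (∑' i, ft q p i) := by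
  simp_rw [lcm_eq hp hq hpq]
  set U : ℕ → Prop := fun m : ℕ => 0 < m ∧ m.primeFactors ⊆ {p, q} with hU
  have hinf : (setOf U).Infinite := by
    refine Set.infinite_of_injective_forall_mem (f := fun k : ℕ => p ^ k)
      (Nat.pow_right_injective hp.two_le) fun k => ?_
    exact (mem_iff hp hq hpq _).2 ⟨(k, 0), by simp⟩
  let G : ℕ → ℝ := fun m => 1 / ((p ^ Nat.log p m * q ^ Nat.log q m : ℕ) : ℝ)
  have h1 : ∑' n, G (Nat.nth U n) = ∑' x : Set.range (Nat.nth U), G x :=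
    (tsum_range (f := G) (Nat.nth_injective hinf)).symm
  have h2 : ∑' z : ℕ × ℕ, G (p ^ z.1 * q ^ z.2) =
      ∑' x : Set.range (fun z : ℕ × ℕ => p ^ z.1 * q ^ z.2), G x :=
    (tsum_range (f := G) (psi_inj hp hq hpq)).symm
  have h3 : Set.range (Nat.nth U) = Set.range (fun z : ℕ × ℕ => p ^ z.1 * q ^ z.2) := by
    rw [Nat.range_nth_of_infinite hinf]
    ext m
    exact mem_iff hp hq hpq m
  have h4 : ∑' n, G (Nat.nth U n) = ∑' z : ℕ × ℕ, G (p ^ z.1 * q ^ z.2) := by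
    rw [h1, h2, h3]
  have h5 : ∀ z : ℕ × ℕ, G (p ^ z.1 * q ^ z.2) = ft p q z.1 * ft q p z.2 := by
    rintro ⟨i, j⟩
    show 1 / ((p ^ Nat.log p (p ^ i * q ^ j) * q ^ Nat.log q (p ^ i * q ^ j) : ℕ) : ℝ) = _
    rw [log_mul hp hq.pos i j]
    have h6 : Nat.log q (p ^ i * q ^ j) = j + Nat.log q (p ^ i) := by
      rw [mul_comm]
      exact log_mul hq hp.pos j i
    rw [h6]
    unfold ft
    push_cast
    rw [one_div, one_div, one_div, inv_pow, inv_pow, inv_pow, inv_pow, mul_inv, pow_add, pow_add,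
      mul_inv, mul_inv]
    ring
  calc (∑' n : ℕ, (1 : ℝ) / ((p ^ Nat.log p (Nat.nth U n) * q ^ Nat.log q (Nat.nth U n) : ℕ) : ℝ))
      = ∑' n, G (Nat.nth U n) := rfl
    _ = ∑' z : ℕ × ℕ, ft p q z.1 * ft q p z.2 := by rw [h4]; exact tsum_congr h5
    _ = _ := by
        refine ((summable_ft hp.two_le hq.two_le).tsum_mul_tsum
          (summable_ft hq.two_le hp.two_le) ?_).symm
        exact (summable_ft hp.two_le hq.two_le).mul_of_nonneg (summable_ft hq.two_le hp.two_le)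
          (fun i => by unfold ft; positivity) (fun i => by unfold ft; positivity)

end

end Pool.Agent.TH634.LC
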