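import Mathlib

/-! # Good one-sided approximations (helper634)

For a positive number with no integral multiple: unimodular pairs `u / v < α < u' / v'` with
`v' - v` arbitrarily large. -/

set_option autoImplicit false

namespace Pool.Agent.TH634.LC

/-- distance to the next natural number -/
noncomputable def D (α : ℝ) (i : ℕ) : ℝ := (⌈(i : ℝ) * α⌉₊ : ℝ) - i * α

theorem D_le (α : ℝ) (i k : ℕ) (h : (i : ℝ) * α ≤ k) : D α i ≤ k - i * α := by
  unfold D
  have h1 : ⌈(i : ℝ) * α⌉₊ ≤ k := Nat.ceil_le.2 h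
  have h2 : ((⌈(i : ℝ) * α⌉₊ : ℕ) : ℝ) ≤ k := by exact_mod_cast h1
  linarith

theorem D_pos (α : ℝ) (hirr : ∀ i : ℕ, 0 < i → ∀ k : ℕ, (k : ℝ) ≠ i * α) (i : ℕ) (hi : 0 < i) :
    0 < D α i := by
  unfold D
  have h1 := Nat.le_ceil ((i : ℝ) * α)
  have h2 := hirr i hi ⌈(i : ℝ) * α⌉₊
  have h3 : (i : ℝ) * α < ⌈(i : ℝ) * α⌉₊ := lt_of_le_of_ne h1 (fun h => h2 h.symm)
  linarith

theorem dens (α : ℝ) (hα : 0 < α) (hirr : ∀ i : ℕ, 0 < i → ∀ k : ℕ, (k : ℝ) ≠ i * α) (δ : ℝ)
    (hδ : 0 < δ) : ∃ i : ℕ, 0 < i ∧ D α i < δ := by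
  obtain ⟨n, hn⟩ := exists_nat_one_div_lt hδ
  obtain ⟨k, hk0, hkn, hk⟩ := Real.exists_nat_abs_mul_sub_round_le α (n := n + 1) (Nat.succ_pos n)
  have hn1 : |(k : ℝ) * α - round ((k : ℝ) * α)| < δ := by
    refine lt_of_le_of_lt hk (lt_of_le_of_lt ?_ hn)
    apply one_div_le_one_div_of_le
    · positivity
    · push_cast
      linarith
  have hn2 : |(k : ℝ) * α - round ((k : ℝ) * α)| < 1 := by
    refine lt_of_le_of_lt hk ?_
    rw [div_lt_one (by positivity)]
    push_cast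
    have : (0 : ℝ) ≤ n := Nat.cast_nonneg n
    linarith
  set r : ℤ := round ((k : ℝ) * α) with hr
  have hkα : 0 < (k : ℝ) * α := by positivity
  have hr0 : 0 ≤ r := by
    by_contra hcon
    push Not at hcon
    have h1 : (r : ℝ) ≤ -1 := by exact_mod_cast (by omega : r ≤ -1)
    rw [abs_lt] at hn2
    linarith [hn2.2]
  obtain ⟨R, hR⟩ := Int.eq_ofNat_of_zero_le hr0
  have hRr : (r : ℝ) = R := by rw [hR]; simp
  rw [hRr] at hn1 hn2
  rcases lt_trichotomy ((k : ℝ) * α) R with h | h | h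
  · refine ⟨k, hk0, lt_of_le_of_lt (D_le α k R h.le) ?_⟩
    rw [abs_lt] at hn1
    linarith [hn1.1]
  · exact absurd h.symm (hirr k hk0 R)
  · set ε : ℝ := (k : ℝ) * α - R with hε
    have hε0 : 0 < ε := by rw [hε]; linarith
    rw [abs_of_pos hε0] at hn1 hn2
    set m : ℕ := ⌊1 / ε⌋₊ with hm
    have hm1 : 1 ≤ m := by
      rw [hm, Nat.one_le_floor_iff, one_le_div hε0]
      exact hn2.le
    have hm2 : (m : ℝ) * ε ≤ 1 := by
      have := Nat.floor_le (show 0 ≤ 1 / ε by positivity)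
      rw [← hm, le_div_iff₀ hε0] at this
      exact this
    have hm3 : 1 < ((m : ℝ) + 1) * ε := by
      have := Nat.lt_floor_add_one (1 / ε)
      rw [← hm, div_lt_iff₀ hε0] at this
      exact this
    refine ⟨m * k, Nat.mul_pos hm1 hk0, ?_⟩
    have h4 : ((m * k : ℕ) : ℝ) * α = m * R + m * ε := by
      rw [hε]; push_cast; ring
    have h5 := D_le α (m * k) (m * R + 1) (by rw [h4]; push_cast; linarith)
    refine lt_of_le_of_lt h5 ?_
    rw [h4]
    push_cast
    nlinarith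

theorem exists_min (α : ℝ) (hirr : ∀ i : ℕ, 0 < i → ∀ k : ℕ, (k : ℝ) ≠ i * α) (N : ℕ) :
    ∃ c : ℝ, 0 < c ∧ ∀ i : ℕ, 0 < i → i ≤ N → c ≤ D α i := by
  induction N with
  | zero => exact ⟨1, one_pos, fun i h1 h2 => by omega⟩
  | succ N ih =>
    obtain ⟨c, hc, h⟩ := ih
    refine ⟨min c (D α (N + 1)), lt_min hc (D_pos α hirr _ (Nat.succ_pos N)), ?_⟩
    intro i h1 h2
    rcases Nat.lt_or_ge i (N + 1) with h3 | h3
    · exact (min_le_left _ _).trans (h i h1 (by omega))
    · have : i = N + 1 := by omega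
      rw [this]
      exact min_le_right _ _

theorem exists_pair (α : ℝ) (hα : 0 < α) (hirr : ∀ i : ℕ, 0 < i → ∀ k : ℕ, (k : ℝ) ≠ i * α)
    (T : ℕ) : ∃ u v u' v' : ℕ, 0 < v ∧ (u : ℝ) < v * α ∧ (v' : ℝ) * α < u' ∧
      u' * v = u * v' + 1 ∧ v + T ≤ v' := by
  classical
  obtain ⟨c, hc, hcT⟩ := exists_min α hirr T
  obtain ⟨M, hM⟩ := exists_nat_gt (1 / c)
  obtain ⟨δ, hδ, hδN⟩ := exists_min α hirr (T + M + 2)
  have hex := dens α hα hirr δ hδ
  let v' := Nat.find hex
  have hv'0 : 0 < v' := (Nat.find_spec hex).1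
  have hv'δ : D α v' < δ := (Nat.find_spec hex).2
  have hv'min : ∀ i, 0 < i → i < v' → δ ≤ D α i := by
    intro i h1 h2
    by_contra h3
    push Not at h3
    exact Nat.find_min hex h2 ⟨h1, h3⟩
  have hv'N : T + M + 2 < v' := by
    by_contra h
    push Not at h
    linarith [hδN v' hv'0 h]
  set u' : ℕ := ⌈(v' : ℝ) * α⌉₊ with hu'
  have hDv' : D α v' = u' - v' * α := rfl
  have hDpos := D_pos α hirr v' hv'0
  have hcop : Nat.Coprime u' v' := by
    by_contra hcon
    set g := Nat.gcd u' v' with hg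
    have hg1 : g ≠ 1 := hcon
    have hg0 : 0 < g := Nat.gcd_pos_of_pos_right _ hv'0
    have hg2 : 2 ≤ g := by omega
    obtain ⟨a, ha⟩ := Nat.gcd_dvd_left u' v'
    obtain ⟨b, hb⟩ := Nat.gcd_dvd_right u' v'
    rw [← hg] at ha hb
    have hb0 : 0 < b := by
      rcases Nat.eq_zero_or_pos b with h | h
      · rw [h] at hb; omega
      · exact h
    have hbv : b < v' := by
      rw [hb]; nlinarith
    have h1 : ((g : ℕ) : ℝ) * ((a : ℝ) - b * α) = D α v' := by
      rw [hDv']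
      have e1 : (u' : ℝ) = g * a := by exact_mod_cast ha
      have e2 : (v' : ℝ) = g * b := by exact_mod_cast hb
      rw [e1, e2]; ring
    have hgR : (2 : ℝ) ≤ g := by exact_mod_cast hg2
    have h2 : 0 < (a : ℝ) - b * α := by
      by_contra h3
      push Not at h3
      nlinarith
    have h3 := D_le α b a (by linarith)
    have h4 := hv'min b hb0 hbv
    nlinarith
  obtain ⟨v, hvlt, hv⟩ := Nat.exists_mul_mod_eq_one_of_coprime hcop (by omega)
  set u : ℕ := u' * v / v' with hu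
  have huv : u' * v = u * v' + 1 := by
    have := Nat.div_add_mod (u' * v) v'
    rw [hv] at this
    rw [← this, mul_comm u v']
  have hv0 : 0 < v := by
    rcases Nat.eq_zero_or_pos v with h | h
    · rw [h] at huv; simp at huv
    · exact h
  have huvR : (u' : ℝ) * v = u * v' + 1 := by exact_mod_cast huv
  have hv'R : (0 : ℝ) < v' := by exact_mod_cast hv'0
  have hvR : (0 : ℝ) < v := by exact_mod_cast hv0
  have hvltR : (v : ℝ) < v' := by exact_mod_cast hvlt
  have hlow : (u : ℝ) < v * α := by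
    by_contra hcon
    push Not at hcon
    have h1 := D_le α v u hcon
    have h2 := hv'min v hv0 hvlt
    -- v' (u - v α) = v D(v') - 1
    have h3 : (v' : ℝ) * (u - v * α) = v * D α v' - 1 := by
      rw [hDv']; linarith
    have h4 : D α v' < u - v * α := by linarith
    have h5 : (v' : ℝ) * D α v' < v' * (u - v * α) := mul_lt_mul_of_pos_left h4 hv'R
    nlinarith
  refine ⟨u, v, u', v', hv0, hlow, by linarith, huv, ?_⟩
  by_contra hcon
  push Not at hcon
  set w : ℕ := v' - v with hw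
  have hw0 : 0 < w := by omega
  have hwT : w ≤ T := by omega
  have huu : u ≤ u' := by
    by_contra h
    push Not at h
    have : (u' : ℝ) < u := by exact_mod_cast h
    nlinarith
  have hwR : (w : ℝ) = v' - v := by
    rw [hw, Nat.cast_sub hvlt.le]
  have h1 : (((u' - u : ℕ) : ℕ) : ℝ) = u' - u := by rw [Nat.cast_sub huu]
  have h2 : (w : ℝ) * α ≤ ((u' - u : ℕ) : ℝ) := by
    rw [h1, hwR]; linarith
  have h3 := D_le α w (u' - u) h2
  have h4 := hcT w hw0 hwT
  rw [h1] at h3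
  have h5 : (v : ℝ) * ((u' : ℝ) - u - w * α) + w * (v * α - u) = 1 := by
    rw [hwR]; linarith
  have hwR0 : (0 : ℝ) < w := by exact_mod_cast hw0
  have h6 : 0 < (w : ℝ) * (v * α - u) := mul_pos hwR0 (by linarith)
  have h7 : (M : ℝ) ≤ v := by
    have : M ≤ v := by omega
    exact_mod_cast this
  have h8 : 1 < (M : ℝ) * c := by
    rw [div_lt_iff₀ hc] at hM
    exact hM
  have h9 : (M : ℝ) * c ≤ v * ((u' : ℝ) - u - w * α) := by
    apply mul_le_mul h7 (by linarith) hc.le hvR.le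
  linarith

/-- the pair for two distinct primes -/
theorem exists_pair_primes (p q : ℕ) (hp : p.Prime) (hq : q.Prime) (hpq : p ≠ q) (T : ℕ) :
    ∃ u v u' v' : ℕ, 0 < v ∧ q ^ u < p ^ v ∧ p ^ v' < q ^ u' ∧ u' * v = u * v' + 1 ∧
      v + T ≤ v' := by
  have hp1 : (1 : ℝ) < p := by exact_mod_cast hp.one_lt
  have hq1 : (1 : ℝ) < q := by exact_mod_cast hq.one_lt
  have hlp := Real.log_pos hp1
  have hlq := Real.log_pos hq1
  have hkey : ∀ i k : ℕ, ((k : ℝ) < i * (Real.log p / Real.log q) → q ^ k < p ^ i) ∧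
      ((i : ℝ) * (Real.log p / Real.log q) < k → p ^ i < q ^ k) := by
    intro i k
    constructor
    · intro h
      rw [mul_div_assoc', lt_div_iff₀ hlq, ← Real.log_pow, ← Real.log_pow] at h
      have := (Real.log_lt_log_iff (by positivity) (by positivity)).1 h
      exact_mod_cast this
    · intro h
      rw [mul_div_assoc', div_lt_iff₀ hlq, ← Real.log_pow, ← Real.log_pow] at h
      have := (Real.log_lt_log_iff (by positivity) (by positivity)).1 h
      exact_mod_cast this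
  have hirr : ∀ i : ℕ, 0 < i → ∀ k : ℕ, (k : ℝ) ≠ i * (Real.log p / Real.log q) := by
    intro i hi k h
    rw [mul_div_assoc', eq_div_iff hlq.ne', ← Real.log_pow, ← Real.log_pow] at h
    have h1 : (q : ℝ) ^ k = (p : ℝ) ^ i :=
      Real.log_injOn_pos (Set.mem_Ioi.2 (by positivity)) (Set.mem_Ioi.2 (by positivity)) h
    have h2 : q ^ k = p ^ i := by exact_mod_cast h1
    have h3 : p ∣ q ^ k := by rw [h2]; exact dvd_pow_self p hi.ne'
    exact hpq ((Nat.prime_dvd_prime_iff_eq hp hq).1 (hp.dvd_of_dvd_pow h3))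
  obtain ⟨u, v, u', v', h0, h1, h2, h3, h4⟩ := exists_pair (Real.log p / Real.log q)
    (div_pos hlp hlq) hirr T
  exact ⟨u, v, u', v', h0, (hkey v u).1 h1, (hkey v' u').2 h2, h3, h4⟩

end Pool.Agent.TH634.LC
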