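import Pool.Agent.TH634.LC.Pair

/-! # The two Hecke-Mahler series and their product (helper634) -/

set_option autoImplicit false

open Finset

namespace Pool.Agent.TH634.LC

/-- terms of the series -/
noncomputable def ft (p q : ℕ) (i : ℕ) : ℝ := (1 / (p : ℝ)) ^ i * (1 / (q : ℝ)) ^ (Nat.log q (p ^ i))

/-- terms of the rational approximations -/
noncomputable def kt (p q u v : ℕ) (i : ℕ) : ℝ := (1 / (p : ℝ)) ^ i * (1 / (q : ℝ)) ^ (i * u / v)

section

variable {p q : ℕ}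

theorem inv_bd (hp : 2 ≤ p) : 0 < 1 / (p : ℝ) ∧ 1 / (p : ℝ) ≤ 1 / 2 := by
  have hp2 : (2 : ℝ) ≤ p := by exact_mod_cast hp
  constructor
  · positivity
  · exact one_div_le_one_div_of_le (by norm_num) hp2

theorem pow_le_one_inv (hq : 2 ≤ q) (k : ℕ) : (1 / (q : ℝ)) ^ k ≤ 1 := by
  obtain ⟨h1, h2⟩ := inv_bd hq
  exact pow_le_one₀ h1.le (by linarith)

theorem summable_geo (hp : 2 ≤ p) : Summable fun i : ℕ => (1 / (p : ℝ)) ^ i := by
  obtain ⟨h1, h2⟩ := inv_bd hp
  exact summable_geometric_of_lt_one h1.le (by linarith)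

theorem summable_gen (hp : 2 ≤ p) (hq : 2 ≤ q) (e : ℕ → ℕ) :
    Summable fun i : ℕ => (1 / (p : ℝ)) ^ i * (1 / (q : ℝ)) ^ (e i) := by
  obtain ⟨h1, h2⟩ := inv_bd hp
  obtain ⟨h3, h4⟩ := inv_bd hq
  refine Summable.of_nonneg_of_le (fun i => by positivity) (fun i => ?_) (summable_geo hp)
  exact mul_le_of_le_one_right (by positivity) (pow_le_one_inv hq _)

theorem summable_ft (hp : 2 ≤ p) (hq : 2 ≤ q) : Summable (ft p q) :=
  summable_gen hp hq fun i => Nat.log q (p ^ i)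

theorem summable_kt (hp : 2 ≤ p) (hq : 2 ≤ q) (u v : ℕ) : Summable (kt p q u v) :=
  summable_gen hp hq fun i => i * u / v

theorem floor_le (hq : 2 ≤ q) {u v : ℕ} (hv : 0 < v) (h1 : q ^ u < p ^ v) (hp : 0 < p) (i : ℕ) :
    i * u / v ≤ Nat.log q (p ^ i) := by
  have h2 : q ^ (i * u / v) ≤ p ^ i := by
    rw [← Nat.pow_le_pow_iff_left hv.ne', ← pow_mul, ← pow_mul]
    calc q ^ (i * u / v * v) ≤ q ^ (i * u) :=
          Nat.pow_le_pow_right (by omega) (Nat.div_mul_le_self _ _)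
      _ = (q ^ u) ^ i := by rw [← pow_mul, mul_comm]
      _ ≤ (p ^ v) ^ i := Nat.pow_le_pow_left h1.le i
      _ = p ^ (i * v) := by rw [← pow_mul, mul_comm]
  exact (Nat.le_log_iff_pow_le (by omega) (by positivity)).2 h2

theorem floor_eq (hq : 2 ≤ q) {u v u' v' : ℕ} (hv : 0 < v) (h1 : q ^ u < p ^ v)
    (h2 : p ^ v' < q ^ u') (h3 : u' * v = u * v' + 1) (hp : 0 < p) (i : ℕ) (hi : i < v + v') :
    Nat.log q (p ^ i) = i * u / v := by
  refine le_antisymm ?_ (floor_le hq hv h1 hp i)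
  set k := Nat.log q (p ^ i) with hk
  have hk1 : q ^ k ≤ p ^ i := Nat.pow_log_le_self q (by positivity)
  rw [Nat.le_div_iff_mul_le hv]
  by_contra hcon
  push Not at hcon
  rcases Nat.eq_zero_or_pos i with h0 | h0
  · rw [h0] at hk1 hcon
    have : k = 0 := by
      rw [hk, h0]; simp
    rw [this] at hcon
    simp at hcon
  have h4 : k * v' < i * u' := by
    by_contra h5
    push Not at h5
    have h6 : q ^ (i * u') ≤ q ^ (k * v') := Nat.pow_le_pow_right (by omega) h5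
    have h7 : (q ^ k) ^ v' ≤ (p ^ i) ^ v' := Nat.pow_le_pow_left hk1 v'
    have h8 : (p ^ v') ^ i < (q ^ u') ^ i := Nat.pow_lt_pow_left h2 h0.ne'
    rw [← pow_mul, ← pow_mul] at h7 h8
    have h9 : q ^ (i * u') = q ^ (u' * i) := by rw [mul_comm]
    have h10 : p ^ (i * v') = p ^ (v' * i) := by rw [mul_comm]
    omega
  -- i = v (i u' - k v') + v' (k v - i u)
  have e1 : i * u + 1 ≤ k * v := hcon
  have e2 : k * v' + 1 ≤ i * u' := h4
  have e3 : v' * (i * u + 1) ≤ v' * (k * v) := Nat.mul_le_mul_left _ e1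
  have e4 : v * (k * v' + 1) ≤ v * (i * u') := Nat.mul_le_mul_left _ e2
  have e5 : v * (i * u') = i * (u * v') + i := by
    calc v * (i * u') = i * (u' * v) := by ring
      _ = i * (u * v') + i := by rw [h3]; ring
  nlinarith

/-- the approximations are rational -/
theorem kt_sum (hp : 2 ≤ p) (hq : 2 ≤ q) {u v : ℕ} (hv : 0 < v) :
    ∃ a : ℕ, (∑' i, kt p q u v i) * ((p : ℝ) ^ v * (q : ℝ) ^ u - 1) = a := by
  have hp0 : (0 : ℝ) < p := by positivity
  have hq0 : (0 : ℝ) < q := by positivity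
  refine ⟨∑ i ∈ range v, p ^ (v - i) * q ^ (u - i * u / v), ?_⟩
  have h1 := (summable_kt (u := u) (v := v) hp hq).sum_add_tsum_nat_add v
  have h2 : ∀ i, kt p q u v (i + v) = ((1 / (p : ℝ)) ^ v * (1 / (q : ℝ)) ^ u) * kt p q u v i := by
    intro i
    unfold kt
    have : (i + v) * u / v = i * u / v + u := by
      rw [add_mul, Nat.add_mul_div_left _ _ hv]
    rw [this, pow_add, pow_add]
    ring
  simp_rw [h2] at h1
  rw [tsum_mul_left] at h1
  have h3 : ((p : ℝ) ^ v * (q : ℝ) ^ u) * ((1 / (p : ℝ)) ^ v * (1 / (q : ℝ)) ^ u) = 1 := by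
    rw [one_div, one_div, inv_pow, inv_pow]
    field_simp
  have h4 : (∑' i, kt p q u v i) * ((p : ℝ) ^ v * (q : ℝ) ^ u - 1) =
      ((p : ℝ) ^ v * (q : ℝ) ^ u) * ∑ i ∈ range v, kt p q u v i := by
    linear_combination (-((p : ℝ) ^ v * (q : ℝ) ^ u)) * h1 + (∑' i, kt p q u v i) * h3
  rw [h4, mul_sum]
  push_cast
  refine sum_congr rfl fun i hi => ?_
  have hi' : i < v := mem_range.1 hi
  have hle : i * u / v ≤ u := by
    rw [Nat.div_le_iff_le_mul_add_pred hv]
    nlinarith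
  unfold kt
  rw [pow_sub₀ _ hp0.ne' hi'.le, pow_sub₀ _ hq0.ne' hle, one_div, one_div, inv_pow, inv_pow]
  ring

theorem approx (hp : p.Prime) (hq : q.Prime) (hpq : p ≠ q) (T : ℕ) :
    ∃ a b : ℕ, 0 < b ∧ 0 < (a : ℝ) / b - (∑' i, ft p q i) ∧
      (b : ℝ) ^ 2 * ((a : ℝ) / b - (∑' i, ft p q i)) ≤ 2 * (1 / 2) ^ T := by
  have hp2 := hp.two_le
  have hq2 := hq.two_le
  obtain ⟨u, v, u', v', hv, h1, h2, h3, h4⟩ := exists_pair_primes p q hp hq hpq T
  obtain ⟨a, ha⟩ := kt_sum (u := u) hp2 hq2 hv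
  have hp0 : (0 : ℝ) < p := by have := hp.pos; positivity
  have hq0 : (0 : ℝ) < q := by have := hq.pos; positivity
  have hQ : 2 ≤ p ^ v * q ^ u := by
    calc 2 ≤ p := hp2
      _ = p ^ 1 := (pow_one p).symm
      _ ≤ p ^ v := Nat.pow_le_pow_right hp.pos hv
      _ = p ^ v * 1 := (mul_one _).symm
      _ ≤ p ^ v * q ^ u := Nat.mul_le_mul_left _ (Nat.pos_of_ne_zero (by positivity))
  have hbR : (((p ^ v * q ^ u - 1 : ℕ) : ℕ) : ℝ) = (p : ℝ) ^ v * (q : ℝ) ^ u - 1 := by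
    rw [Nat.cast_sub (by omega)]
    push_cast
    ring
  set b : ℕ := p ^ v * q ^ u - 1 with hb
  have hb0 : 0 < b := by omega
  have hb0R : (0 : ℝ) < b := by exact_mod_cast hb0
  set Qr : ℝ := (p : ℝ) ^ v * (q : ℝ) ^ u with hQr
  have hQ0 : 0 < Qr := by positivity
  have hab : (a : ℝ) / b = ∑' i, kt p q u v i := by
    rw [div_eq_iff hb0R.ne', hbR, ← ha]
  have hsk := summable_kt (u := u) (v := v) hp2 hq2
  have hsf := summable_ft hp2 hq2
  have hdiff : (a : ℝ) / b - (∑' i, ft p q i) = ∑' i, (kt p q u v i - ft p q i) := by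
    rw [hab, hsk.tsum_sub hsf]
  obtain ⟨hx0, hx1⟩ := inv_bd hp2
  obtain ⟨hy0, hy1⟩ := inv_bd hq2
  have hnn : ∀ i, 0 ≤ kt p q u v i - ft p q i := by
    intro i
    unfold kt ft
    rw [← mul_sub]
    refine mul_nonneg (by positivity) (sub_nonneg.2 ?_)
    exact pow_le_pow_of_le_one hy0.le (by linarith) (floor_le hq2 hv h1 hp.pos i)
  have hsd : Summable fun i => kt p q u v i - ft p q i := hsk.sub hsf
  refine ⟨a, b, hb0, ?_, ?_⟩
  · rw [hdiff]
    -- a strictly positive term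
    have hratio : (1 : ℝ) < (p : ℝ) ^ v / (q : ℝ) ^ u := by
      rw [one_lt_div (by positivity)]
      exact_mod_cast h1
    obtain ⟨K, hK⟩ := pow_unbounded_of_one_lt (q : ℝ) hratio
    have hpos : 0 < kt p q u v (v * K) - ft p q (v * K) := by
      unfold kt ft
      rw [← mul_sub]
      refine mul_pos (by positivity) (sub_pos.2 ?_)
      refine pow_lt_pow_right_of_lt_one₀ hy0 (by linarith) ?_
      have e1 : v * K * u / v = K * u := by
        rw [mul_assoc, Nat.mul_div_cancel_left _ hv]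
      rw [e1]
      have e2 : q ^ (K * u + 1) ≤ p ^ (v * K) := by
        have e3 : (q : ℝ) * ((q : ℝ) ^ u) ^ K < ((p : ℝ) ^ v) ^ K := by
          rw [div_pow, lt_div_iff₀ (by positivity)] at hK
          exact hK
        have e4 : q * (q ^ u) ^ K < (p ^ v) ^ K := by exact_mod_cast e3
        have e5 : q ^ (K * u + 1) = q * (q ^ u) ^ K := by
          rw [pow_succ, mul_comm K u, pow_mul]; ring
        have e6 : p ^ (v * K) = (p ^ v) ^ K := pow_mul _ _ _
        rw [e5, e6]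
        exact e4.le
      have := (Nat.le_log_iff_pow_le (b := q) (by omega)
        (show p ^ (v * K) ≠ 0 by have := hp.pos; positivity)).2 e2
      omega
    exact hsd.tsum_pos hnn (v * K) hpos
  · rw [hdiff]
    have hz : ∑ i ∈ range (2 * v + T), (kt p q u v i - ft p q i) = 0 := by
      refine sum_eq_zero fun i hi => ?_
      have hi' : i < v + v' := by
        have := mem_range.1 hi
        omega
      unfold kt ft
      rw [floor_eq hq2 hv h1 h2 h3 hp.pos i hi', sub_self]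
    have h5 := hsd.sum_add_tsum_nat_add (2 * v + T)
    rw [hz, zero_add] at h5
    rw [← h5]
    have hkt : ∀ i, kt p q u v (i + (2 * v + T)) ≤ (1 / Qr ^ 2) * ((1 / 2) ^ T * (1 / 2) ^ i) := by
      intro i
      unfold kt
      have e1 : (i + (2 * v + T)) * u / v = (i + T) * u / v + 2 * u := by
        have : (i + (2 * v + T)) * u = (i + T) * u + v * (2 * u) := by ring
        rw [this, Nat.add_mul_div_left _ _ hv]
      have e2 : i + (2 * v + T) = (i + T) + 2 * v := by ring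
      rw [e1, e2, pow_add (1 / (p : ℝ)), pow_add (1 / (q : ℝ))]
      have e3 : (1 / (p : ℝ)) ^ (2 * v) * (1 / (q : ℝ)) ^ (2 * u) = 1 / Qr ^ 2 := by
        rw [hQr, one_div, one_div, inv_pow, inv_pow, mul_pow, ← pow_mul, ← pow_mul, mul_comm v 2,
          mul_comm u 2, one_div, mul_inv]
      have e4 : (1 / (p : ℝ)) ^ (i + T) * (1 / (q : ℝ)) ^ ((i + T) * u / v) ≤
          (1 / 2) ^ T * (1 / 2) ^ i := by
        calc _ ≤ (1 / (p : ℝ)) ^ (i + T) * 1 :=
              mul_le_mul_of_nonneg_left (pow_le_one_inv hq2 _) (by positivity)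
          _ ≤ (1 / 2) ^ (i + T) := by
              rw [mul_one]; exact pow_le_pow_left₀ hx0.le hx1 _
          _ = _ := by rw [pow_add]; ring
      calc (1 / (p : ℝ)) ^ (i + T) * (1 / (p : ℝ)) ^ (2 * v) *
            ((1 / (q : ℝ)) ^ ((i + T) * u / v) * (1 / (q : ℝ)) ^ (2 * u)) =
            ((1 / (p : ℝ)) ^ (2 * v) * (1 / (q : ℝ)) ^ (2 * u)) *
            ((1 / (p : ℝ)) ^ (i + T) * (1 / (q : ℝ)) ^ ((i + T) * u / v)) := by ring
        _ ≤ (1 / Qr ^ 2) * ((1 / 2) ^ T * (1 / 2) ^ i) := by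
            rw [e3]
            exact mul_le_mul_of_nonneg_left e4 (by positivity)
    have hgs : HasSum (fun i : ℕ => (1 / Qr ^ 2) * ((1 / 2 : ℝ) ^ T * (1 / 2) ^ i))
        ((1 / Qr ^ 2) * ((1 / 2) ^ T * 2)) :=
      (hasSum_geometric_two.mul_left _).mul_left _
    have h6 : ∑' i, (kt p q u v (i + (2 * v + T)) - ft p q (i + (2 * v + T))) ≤
        (1 / Qr ^ 2) * ((1 / 2) ^ T * 2) := by
      rw [← hgs.tsum_eq]
      refine Summable.tsum_le_tsum (fun i => ?_) ?_ hgs.summable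
      · have : 0 ≤ ft p q (i + (2 * v + T)) := by unfold ft; positivity
        linarith [hkt i]
      · exact (summable_nat_add_iff (f := fun i => kt p q u v i - ft p q i) (2 * v + T)).2 hsd
    have h7 : (b : ℝ) ^ 2 ≤ Qr ^ 2 := by
      apply pow_le_pow_left₀ hb0R.le
      rw [hbR]
      linarith
    calc (b : ℝ) ^ 2 * ∑' i, (kt p q u v (i + (2 * v + T)) - ft p q (i + (2 * v + T))) ≤
          (b : ℝ) ^ 2 * ((1 / Qr ^ 2) * ((1 / 2) ^ T * 2)) :=
            mul_le_mul_of_nonneg_left h6 (by positivity)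
      _ ≤ Qr ^ 2 * ((1 / Qr ^ 2) * ((1 / 2) ^ T * 2)) :=
            mul_le_mul_of_nonneg_right h7 (by positivity)
      _ = 2 * (1 / 2) ^ T := by
            field_simp

/-- `f` is not a root of a quadratic polynomial with integral coefficients -/
theorem not_quadratic (hp : p.Prime) (hq : q.Prime) (hpq : p ≠ q) (A B C : ℤ) (hA : A ≠ 0)
    (h : (A : ℝ) * (∑' i, ft p q i) ^ 2 + B * (∑' i, ft p q i) + C = 0) : False := by
  set f : ℝ := ∑' i, ft p q i with hf
  have hf0 : 0 ≤ f := tsum_nonneg fun i => by unfold ft; positivity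
  set K : ℝ := |(A : ℝ)| * (2 * f + 2) + |(B : ℝ)| with hK
  have hK0 : 0 ≤ K := by positivity
  have key : ∀ T : ℕ, 2 * (1 / 2 : ℝ) ^ T * K < 1 → 1 ≤ T →
      ∃ e : ℝ, 0 < e ∧ e ≤ 2 * (1 / 2) ^ T ∧ (A : ℝ) * (e + 2 * f) + B = 0 := by
    intro T hT hT1
    obtain ⟨a, b, hb, h1, h2⟩ := approx hp hq hpq T
    rw [← hf] at h1 h2
    have hbR : (1 : ℝ) ≤ b := by exact_mod_cast hb
    set e : ℝ := (a : ℝ) / b - f with he
    have he2 : e ≤ 2 * (1 / 2) ^ T := by
      have : e ≤ (b : ℝ) ^ 2 * e := le_mul_of_one_le_left h1.le (one_le_pow₀ hbR)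
      linarith
    have hT2 : (1 / 2 : ℝ) ^ T ≤ 1 / 2 := by
      calc (1 / 2 : ℝ) ^ T ≤ (1 / 2) ^ 1 := pow_le_pow_of_le_one (by norm_num) (by norm_num) hT1
        _ = 1 / 2 := pow_one _
    refine ⟨e, h1, he2, ?_⟩
    have ha : (a : ℝ) = b * (e + f) := by
      rw [he]; field_simp; ring
    have hN : (((A * a ^ 2 + B * a * b + C * b ^ 2 : ℤ)) : ℝ) =
        (b : ℝ) ^ 2 * e * (A * (e + 2 * f) + B) := by
      push_cast
      rw [ha]
      linear_combination (b : ℝ) ^ 2 * h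
    have hbd : |(A : ℝ) * (e + 2 * f) + B| ≤ K := by
      calc |(A : ℝ) * (e + 2 * f) + B| ≤ |(A : ℝ) * (e + 2 * f)| + |(B : ℝ)| := abs_add_le _ _
        _ = |(A : ℝ)| * (e + 2 * f) + |(B : ℝ)| := by
            rw [abs_mul, abs_of_nonneg (show 0 ≤ e + 2 * f by linarith)]
        _ ≤ K := by
            rw [hK]
            have : e + 2 * f ≤ 2 * f + 2 := by linarith
            have := mul_le_mul_of_nonneg_left this (abs_nonneg (A : ℝ))
            linarith
    have hN1 : |(((A * a ^ 2 + B * a * b + C * b ^ 2 : ℤ)) : ℝ)| < 1 := by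
      rw [hN, abs_mul, abs_of_nonneg (show 0 ≤ (b : ℝ) ^ 2 * e by positivity)]
      calc (b : ℝ) ^ 2 * e * |(A : ℝ) * (e + 2 * f) + B| ≤ 2 * (1 / 2) ^ T * K :=
            mul_le_mul h2 hbd (abs_nonneg _) (by positivity)
        _ < 1 := hT
    have hN2 : (A * a ^ 2 + B * a * b + C * b ^ 2 : ℤ) = 0 := by
      have : |(A * a ^ 2 + B * a * b + C * b ^ 2 : ℤ)| < 1 := by exact_mod_cast hN1
      exact Int.abs_lt_one_iff.1 this
    rw [hN2] at hN
    have h3 : (b : ℝ) ^ 2 * e ≠ 0 := by positivity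
    have h4 : (b : ℝ) ^ 2 * e * (A * (e + 2 * f) + B) = 0 := by
      rw [← hN]; simp
    exact (mul_eq_zero.1 h4).resolve_left h3
  have hlim : ∀ ε : ℝ, 0 < ε → ∃ T0 : ℕ, ∀ T, T0 ≤ T → 2 * (1 / 2 : ℝ) ^ T < ε := by
    intro ε hε
    obtain ⟨T0, hT0⟩ := exists_pow_lt_of_lt_one (show 0 < ε / 2 by positivity)
      (show (1 / 2 : ℝ) < 1 by norm_num)
    refine ⟨T0, fun T hT => ?_⟩
    have := pow_le_pow_of_le_one (show (0 : ℝ) ≤ 1 / 2 by norm_num) (by norm_num) hT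
    linarith
  obtain ⟨T1, hT1⟩ := hlim (1 / (K + 1)) (by positivity)
  have hsmall : ∀ T, T1 ≤ T → 2 * (1 / 2 : ℝ) ^ T * K < 1 := by
    intro T hT
    have h1 := hT1 T hT
    have h2 : 2 * (1 / 2 : ℝ) ^ T * (K + 1) < 1 := by
      rw [lt_div_iff₀ (by positivity)] at h1
      exact h1
    have h3 : 0 < 2 * (1 / 2 : ℝ) ^ T := by positivity
    nlinarith
  obtain ⟨e, he0, he1, he2⟩ := key (T1 + 1) (hsmall _ (by omega)) (by omega)
  obtain ⟨T2, hT2⟩ := hlim e he0
  obtain ⟨e', he0', he1', he2'⟩ := key (T1 + T2 + 1) (hsmall _ (by omega)) (by omega)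
  have h1 := hT2 (T1 + T2 + 1) (by omega)
  have h2 : (A : ℝ) * (e - e') = 0 := by linarith
  have hA' : (A : ℝ) ≠ 0 := by exact_mod_cast hA
  have h3 : e - e' = 0 := (mul_eq_zero.1 h2).resolve_left hA'
  linarith

end

end Pool.Agent.TH634.LC
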