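import Pool.Agent.TH634.LC.Lcm
import Pool.Agent.W472.AC.RothThm

/-! # Transcendence of the reciprocal-lcm series of two primes (helper634) -/

set_option autoImplicit false

open Finset

namespace Pool.Agent.TH634.LC

/-- distance to the previous natural number -/
noncomputable def Ed (α : ℝ) (i : ℕ) : ℝ := (i : ℝ) * α - (⌊(i : ℝ) * α⌋₊ : ℝ)

theorem Ed_le (α : ℝ) (hα : 0 < α) (i k : ℕ) (h : (k : ℝ) ≤ i * α) : Ed α i ≤ i * α - k := by
  unfold Ed
  have h1 : k ≤ ⌊(i : ℝ) * α⌋₊ := Nat.le_floor h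
  have h2 : (k : ℝ) ≤ ((⌊(i : ℝ) * α⌋₊ : ℕ) : ℝ) := by exact_mod_cast h1
  linarith

theorem Ed_pos (α : ℝ) (hα : 0 < α) (hirr : ∀ i : ℕ, 0 < i → ∀ k : ℕ, (k : ℝ) ≠ i * α) (i : ℕ)
    (hi : 0 < i) : 0 < Ed α i := by
  unfold Ed
  have h1 := Nat.floor_le (show 0 ≤ (i : ℝ) * α by positivity)
  have h2 := hirr i hi ⌊(i : ℝ) * α⌋₊
  have h3 : ((⌊(i : ℝ) * α⌋₊ : ℕ) : ℝ) < (i : ℝ) * α := lt_of_le_of_ne h1 h2
  linarith

theorem exists_min' (α : ℝ) (hα : 0 < α) (hirr : ∀ i : ℕ, 0 < i → ∀ k : ℕ, (k : ℝ) ≠ i * α)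
    (N : ℕ) : ∃ c : ℝ, 0 < c ∧ ∀ i : ℕ, 0 < i → i ≤ N → c ≤ Ed α i := by
  induction N with
  | zero => exact ⟨1, one_pos, fun i h1 h2 => by omega⟩
  | succ N ih =>
    obtain ⟨c, hc, h⟩ := ih
    refine ⟨min c (Ed α (N + 1)), lt_min hc (Ed_pos α hα hirr _ (Nat.succ_pos N)), ?_⟩
    intro i h1 h2
    rcases Nat.lt_or_ge i (N + 1) with h3 | h3
    · exact (min_le_left _ _).trans (h i h1 (by omega))
    · have : i = N + 1 := by omega
      rw [this]
      exact min_le_right _ _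

theorem exists_pair2 (α : ℝ) (hα : 0 < α) (hirr : ∀ i : ℕ, 0 < i → ∀ k : ℕ, (k : ℝ) ≠ i * α)
    (T : ℕ) : ∃ u v u' v' : ℕ, 0 < v ∧ (u : ℝ) < v * α ∧ (v' : ℝ) * α < u' ∧
      u' * v = u * v' + 1 ∧ v + T ≤ v' ∧ T ≤ v := by
  obtain ⟨c, hc, hcT⟩ := exists_min' α hα hirr T
  obtain ⟨M, hM⟩ := exists_nat_gt (1 / c)
  obtain ⟨u, v, u', v', h0, h1, h2, h3, h4⟩ := exists_pair α hα hirr (T + M)
  refine ⟨u, v, u', v', h0, h1, h2, h3, by omega, ?_⟩
  by_contra hcon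
  push Not at hcon
  have h5 := Ed_le α hα v u h1.le
  have h6 := hcT v h0 hcon.le
  have h7 : (v : ℝ) * (u' - v' * α) + v' * (v * α - u) = 1 := by
    have : (u' : ℝ) * v = u * v' + 1 := by exact_mod_cast h3
    linarith
  have h8 : 0 ≤ (v : ℝ) * (u' - v' * α) := mul_nonneg (Nat.cast_nonneg v) (by linarith)
  have h9 : (M : ℝ) ≤ v' := by
    have : M ≤ v' := by omega
    exact_mod_cast this
  have h10 : 1 < (M : ℝ) * c := by
    rw [div_lt_iff₀ hc] at hM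
    exact hM
  have h11 : (M : ℝ) * c ≤ v' * (v * α - u) :=
    mul_le_mul h9 (by linarith) hc.le (Nat.cast_nonneg v')
  linarith

/-- a pair with a large quotient of the denominators -/
def Good (p q T : ℕ) : Prop :=
  ∃ u v u' v' : ℕ, 0 < v ∧ q ^ u < p ^ v ∧ p ^ v' < q ^ u' ∧ u' * v = u * v' + 1 ∧ T ≤ v ∧
    3 * v ≤ 2 * v'

section

variable {p q : ℕ}

theorem pair_primes2 (hp : p.Prime) (hq : q.Prime) (hpq : p ≠ q) (T : ℕ) :
    ∃ u v u' v' : ℕ, 0 < v ∧ q ^ u < p ^ v ∧ p ^ v' < q ^ u' ∧ u' * v = u * v' + 1 ∧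
      v + T ≤ v' ∧ T ≤ v := by
  have hp1 : (1 : ℝ) < p := by exact_mod_cast hp.one_lt
  have hq1 : (1 : ℝ) < q := by exact_mod_cast hq.one_lt
  have hlp := Real.log_pos hp1
  have hlq := Real.log_pos hq1
  have hkey : ∀ i k : ℕ, ((k : ℝ) < i * (Real.log p / Real.log q) → q ^ k < p ^ i) ∧
      ((i : ℝ) * (Real.log p / Real.log q) < k → p ^ i < q ^ k) := by
    intro i k
    constructor
    · intro h
      rw [mul_div_assoc', lt_div_iff₀ hlq, ← Real.log_pow, ← Real.log_pow] at h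
      have := (Real.log_lt_log_iff (by positivity) (by positivity)).1 h
      exact_mod_cast this
    · intro h
      rw [mul_div_assoc', div_lt_iff₀ hlq, ← Real.log_pow, ← Real.log_pow] at h
      have := (Real.log_lt_log_iff (by positivity) (by positivity)).1 h
      exact_mod_cast this
  have hirr : ∀ i : ℕ, 0 < i → ∀ k : ℕ, (k : ℝ) ≠ i * (Real.log p / Real.log q) := by
    intro i hi k h
    rw [mul_div_assoc', eq_div_iff hlq.ne', ← Real.log_pow, ← Real.log_pow] at h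
    have h1 : (q : ℝ) ^ k = (p : ℝ) ^ i :=
      Real.log_injOn_pos (Set.mem_Ioi.2 (by positivity)) (Set.mem_Ioi.2 (by positivity)) h
    have h2 : q ^ k = p ^ i := by exact_mod_cast h1
    have h3 : p ∣ q ^ k := by rw [h2]; exact dvd_pow_self p hi.ne'
    exact hpq ((Nat.prime_dvd_prime_iff_eq hp hq).1 (hp.dvd_of_dvd_pow h3))
  obtain ⟨u, v, u', v', h0, h1, h2, h3, h4, h5⟩ := exists_pair2 (Real.log p / Real.log q)
    (div_pos hlp hlq) hirr T
  exact ⟨u, v, u', v', h0, (hkey v u).1 h1, (hkey v' u').2 h2, h3, h4, h5⟩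

theorem dich (hp : p.Prime) (hq : q.Prime) (hpq : p ≠ q) (T : ℕ) : Good p q T ∨ Good q p T := by
  obtain ⟨u, v, u', v', h0, h1, h2, h3, h4, h5⟩ := pair_primes2 hp hq hpq (T + q * (T + 3))
  have hT : T ≤ v := by
    have := Nat.zero_le (q * (T + 3))
    omega
  by_cases hc : 3 * v ≤ 2 * v'
  · exact Or.inl ⟨u, v, u', v', h0, h1, h2, h3, hT, hc⟩
  push Not at hc
  have hne : p ^ (v + v') ≠ q ^ (u + u') := by
    intro h
    have h3 : p ∣ q ^ (u + u') := by rw [← h]; exact dvd_pow_self p (by omega)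
    exact hpq ((Nat.prime_dvd_prime_iff_eq hp hq).1 (hp.dvd_of_dvd_pow h3))
  rcases lt_or_gt_of_ne hne with h | h
  · left
    refine ⟨u, v, u + u', v + v', h0, h1, h, ?_, hT, by omega⟩
    calc (u + u') * v = u * v + u' * v := by ring
      _ = u * (v + v') + 1 := by rw [h3]; ring
  · right
    have hu' : T + 3 ≤ u' := by
      by_contra hcon
      push Not at hcon
      have e1 : 2 ^ v' ≤ p ^ v' := Nat.pow_le_pow_left hp.two_le v'
      have e2 : q ^ u' ≤ (2 ^ q) ^ u' := Nat.pow_le_pow_left (Nat.lt_two_pow_self).le u'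
      have e3 : 2 ^ v' < 2 ^ (q * u') := by
        calc 2 ^ v' ≤ p ^ v' := e1
          _ < q ^ u' := h2
          _ ≤ (2 ^ q) ^ u' := e2
          _ = 2 ^ (q * u') := (pow_mul _ _ _).symm
      have e4 : v' < q * u' := (Nat.pow_lt_pow_iff_right (by norm_num)).1 e3
      have e5 : q * u' ≤ q * (T + 3) := Nat.mul_le_mul_left _ hcon.le
      omega
    refine ⟨v', u', v + v', u + u', by omega, h2, h, ?_, by omega, ?_⟩
    · calc (v + v') * u' = u' * v + v' * u' := by ring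
        _ = v' * (u + u') + 1 := by rw [h3]; ring
    · -- u' ≤ 2 u
      have e1 : u' ≤ 2 * u := by
        by_contra hcon
        push Not at hcon
        rcases Nat.lt_or_ge u 2 with hu | hu
        · interval_cases u
          · simp at h3
            omega
          · have e3 : 3 * v ≤ u' * v := Nat.mul_le_mul_right v (by omega)
            omega
        · have e2 : (2 * u + 1) * v ≤ u' * v := Nat.mul_le_mul_right v (by omega)
          nlinarith
      omega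

theorem approx2 (hp : p.Prime) (hq : q.Prime) (T : ℕ) (hG : Good p q T) :
    ∃ a b : ℕ, 0 < b ∧ (2 : ℝ) ^ T * ((b : ℝ) ^ 9 * ((a : ℝ) / b - (∑' i, ft p q i)) ^ 4) ≤
        16 * (q : ℝ) ^ 2 ∧ 0 ≤ (a : ℝ) / b - (∑' i, ft p q i) := by
  have hp2 := hp.two_le
  have hq2 := hq.two_le
  obtain ⟨u, v, u', v', hv, h1, h2, h3, hTv, h4⟩ := hG
  obtain ⟨a, ha⟩ := kt_sum (u := u) hp2 hq2 hv
  have hp0 : (0 : ℝ) < p := by have := hp.pos; positivity
  have hq0 : (0 : ℝ) < q := by have := hq.pos; positivity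
  have hQT : 2 ^ T ≤ p ^ v * q ^ u := by
    calc 2 ^ T ≤ 2 ^ v := Nat.pow_le_pow_right (by norm_num) hTv
      _ ≤ p ^ v := Nat.pow_le_pow_left hp2 v
      _ = p ^ v * 1 := (mul_one _).symm
      _ ≤ p ^ v * q ^ u := Nat.mul_le_mul_left _ (Nat.pow_pos hq.pos)
  have hQ : 2 ≤ p ^ v * q ^ u := by
    calc 2 ≤ p := hp2
      _ = p ^ 1 := (pow_one p).symm
      _ ≤ p ^ v := Nat.pow_le_pow_right hp.pos hv
      _ = p ^ v * 1 := (mul_one _).symm
      _ ≤ p ^ v * q ^ u := Nat.mul_le_mul_left _ (Nat.pow_pos hq.pos)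
  have hbR : (((p ^ v * q ^ u - 1 : ℕ) : ℕ) : ℝ) = (p : ℝ) ^ v * (q : ℝ) ^ u - 1 := by
    rw [Nat.cast_sub (by omega)]
    push_cast
    ring
  set b : ℕ := p ^ v * q ^ u - 1 with hb
  have hb0 : 0 < b := by omega
  have hb0R : (0 : ℝ) < b := by exact_mod_cast hb0
  set Qr : ℝ := (p : ℝ) ^ v * (q : ℝ) ^ u with hQr
  have hQ0 : 0 < Qr := by positivity
  have hab : (a : ℝ) / b = ∑' i, kt p q u v i := by
    rw [div_eq_iff hb0R.ne', hbR, ← ha]
  have hsk := summable_kt (u := u) (v := v) hp2 hq2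
  have hsf := summable_ft hp2 hq2
  have hdiff : (a : ℝ) / b - (∑' i, ft p q i) = ∑' i, (kt p q u v i - ft p q i) := by
    rw [hab, hsk.tsum_sub hsf]
  obtain ⟨hx0, hx1⟩ := inv_bd hp2
  obtain ⟨hy0, hy1⟩ := inv_bd hq2
  have hnn : ∀ i, 0 ≤ kt p q u v i - ft p q i := by
    intro i
    unfold kt ft
    rw [← mul_sub]
    refine mul_nonneg (by positivity) (sub_nonneg.2 ?_)
    exact pow_le_pow_of_le_one hy0.le (by linarith) (floor_le hq2 hv h1 hp.pos i)
  have hsd : Summable fun i => kt p q u v i - ft p q i := hsk.sub hsf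
  set w : ℕ := v + v' with hw
  set k : ℕ := w * u / v with hk
  have hz : ∑ i ∈ range w, (kt p q u v i - ft p q i) = 0 := by
    refine sum_eq_zero fun i hi => ?_
    have hi' : i < v + v' := mem_range.1 hi
    unfold kt ft
    rw [floor_eq hq2 hv h1 h2 h3 hp.pos i hi', sub_self]
  have h5 := hsd.sum_add_tsum_nat_add w
  rw [hz, zero_add] at h5
  have hpos : 0 ≤ (a : ℝ) / b - (∑' i, ft p q i) := by
    rw [hdiff]
    exact tsum_nonneg hnn
  set Y : ℝ := (1 / (p : ℝ)) ^ w * (1 / (q : ℝ)) ^ k with hY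
  have hY0 : 0 < Y := by positivity
  have hkt : ∀ i, kt p q u v (i + w) ≤ Y * (1 / 2) ^ i := by
    intro i
    unfold kt
    have e1 : k ≤ (i + w) * u / v := by
      rw [hk]
      exact Nat.div_le_div_right (Nat.mul_le_mul_right _ (by omega))
    have e2 : (1 / (q : ℝ)) ^ ((i + w) * u / v) ≤ (1 / (q : ℝ)) ^ k :=
      pow_le_pow_of_le_one hy0.le (by linarith) e1
    have e3 : (1 / (p : ℝ)) ^ i ≤ (1 / 2) ^ i := pow_le_pow_left₀ hx0.le hx1 _
    rw [pow_add (1 / (p : ℝ))]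
    calc (1 / (p : ℝ)) ^ i * (1 / (p : ℝ)) ^ w * (1 / (q : ℝ)) ^ ((i + w) * u / v) ≤
          (1 / 2) ^ i * (1 / (p : ℝ)) ^ w * (1 / (q : ℝ)) ^ k := by
            apply mul_le_mul _ e2 (by positivity) (by positivity)
            exact mul_le_mul_of_nonneg_right e3 (by positivity)
      _ = Y * (1 / 2) ^ i := by rw [hY]; ring
  have hgs : HasSum (fun i : ℕ => Y * (1 / 2 : ℝ) ^ i) (Y * 2) :=
    hasSum_geometric_two.mul_left _
  have h6 : (a : ℝ) / b - (∑' i, ft p q i) ≤ Y * 2 := by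
    rw [hdiff, ← h5, ← hgs.tsum_eq]
    refine Summable.tsum_le_tsum (fun i => ?_) ?_ hgs.summable
    · have : 0 ≤ ft p q (i + w) := by unfold ft; positivity
      linarith [hkt i]
    · exact (summable_nat_add_iff (f := fun i => kt p q u v i - ft p q i) w).2 hsd
  have hY2 : Y ^ 2 * Qr ^ 5 ≤ q := by
    have e1 : 5 * v ≤ 2 * w := by omega
    have e2 : 5 * u ≤ 2 * k + 1 := by
      have e3 : w * u < (k + 1) * v := by
        rw [hk]
        have := Nat.lt_div_mul_add (a := w * u) hv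
        nlinarith
      by_contra hcon
      push Not at hcon
      have e4 : (2 * k + 2) * v ≤ 5 * u * v := Nat.mul_le_mul_right v (by omega)
      have e5 : 5 * v * u ≤ 2 * w * u := Nat.mul_le_mul_right u e1
      nlinarith
    have e3 : (1 / (p : ℝ)) ^ (2 * w) ≤ (1 / (p : ℝ)) ^ (5 * v) :=
      pow_le_pow_of_le_one hx0.le (by linarith) e1
    have e4 : (1 / (q : ℝ)) ^ (2 * k + 1) ≤ (1 / (q : ℝ)) ^ (5 * u) :=
      pow_le_pow_of_le_one hy0.le (by linarith) e2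
    have e5 : Y ^ 2 = ((1 / (p : ℝ)) ^ (2 * w) * (1 / (q : ℝ)) ^ (2 * k + 1)) * q := by
      rw [hY, mul_pow, ← pow_mul, ← pow_mul, pow_succ, mul_comm w 2, mul_comm k 2]
      field_simp
    have e6 : (1 / (p : ℝ)) ^ (5 * v) * (1 / (q : ℝ)) ^ (5 * u) * Qr ^ 5 = 1 := by
      rw [hQr, mul_pow, ← pow_mul, ← pow_mul, one_div, one_div, inv_pow, inv_pow, mul_comm v 5,
        mul_comm u 5]
      field_simp
    calc Y ^ 2 * Qr ^ 5 = ((1 / (p : ℝ)) ^ (2 * w) * (1 / (q : ℝ)) ^ (2 * k + 1)) * (q * Qr ^ 5) := by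
          rw [e5]; ring
      _ ≤ ((1 / (p : ℝ)) ^ (5 * v) * (1 / (q : ℝ)) ^ (5 * u)) * (q * Qr ^ 5) := by
          apply mul_le_mul_of_nonneg_right _ (by positivity)
          exact mul_le_mul e3 e4 (by positivity) (by positivity)
      _ = ((1 / (p : ℝ)) ^ (5 * v) * (1 / (q : ℝ)) ^ (5 * u) * Qr ^ 5) * q := by ring
      _ = q := by rw [e6, one_mul]
  refine ⟨a, b, hb0, ?_, hpos⟩
  have hbQ : (b : ℝ) ≤ Qr := by rw [hbR]; linarith
  have hQTR : (2 : ℝ) ^ T ≤ Qr := by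
    rw [hQr]
    exact_mod_cast hQT
  calc (2 : ℝ) ^ T * ((b : ℝ) ^ 9 * ((a : ℝ) / b - (∑' i, ft p q i)) ^ 4) ≤
        Qr * (Qr ^ 9 * (Y * 2) ^ 4) := by
          apply mul_le_mul hQTR _ (by positivity) hQ0.le
          apply mul_le_mul (pow_le_pow_left₀ hb0R.le hbQ 9) (pow_le_pow_left₀ hpos h6 4)
            (by positivity) (by positivity)
    _ = 16 * (Y ^ 2 * Qr ^ 5) ^ 2 := by ring
    _ ≤ 16 * (q : ℝ) ^ 2 := by
          apply mul_le_mul_of_nonneg_left _ (by norm_num)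
          exact pow_le_pow_left₀ (by positivity) hY2 2

theorem irr_ft (hp : p.Prime) (hq : q.Prime) (hpq : p ≠ q) : Irrational (∑' i, ft p q i) := by
  rintro ⟨r, hr⟩
  have hd : (r.den : ℝ) ≠ 0 := by exact_mod_cast r.den_nz
  have h1 : (r.den : ℝ) * (∑' i, ft p q i) - r.num = 0 := by
    rw [← hr]
    have h2 : (r : ℝ) = r.num / r.den := by
      exact_mod_cast (Rat.num_div_den r).symm
    rw [h2]
    field_simp
    ring
  refine not_quadratic hp hq hpq ((r.den : ℤ) ^ 2) (-2 * r.den * r.num) (r.num ^ 2) ?_ ?_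
  · have := r.den_nz
    positivity
  · push_cast
    linear_combination ((r.den : ℝ) * (∑' i, ft p q i) - r.num) * h1

theorem not_good (hp : p.Prime) (hq : q.Prime) (hpq : p ≠ q)
    (halg : IsAlgebraic ℚ (∑' i, ft p q i)) : ∃ T0 : ℕ, ∀ T, T0 ≤ T → ¬ Good p q T := by
  obtain ⟨c, hc, hroth⟩ := Pool.Agent.W472.AC.roth _ halg (irr_ft hp hq hpq) (1 / 4) (by norm_num)
  obtain ⟨T0, hT0⟩ := pow_unbounded_of_one_lt (16 * (q : ℝ) ^ 2 / c ^ 4)
    (show (1 : ℝ) < 2 by norm_num)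
  refine ⟨T0, fun T hT hG => ?_⟩
  obtain ⟨a, b, hb, h1, h2⟩ := approx2 hp hq T hG
  have h3 := hroth b hb (a : ℤ)
  set f : ℝ := ∑' i, ft p q i with hf
  set e : ℝ := (a : ℝ) / b - f with he
  have hbR : (0 : ℝ) < b := by exact_mod_cast hb
  have h4 : |(b : ℝ) * f - ((a : ℤ) : ℝ)| = b * e := by
    rw [abs_sub_comm, abs_of_nonneg]
    · rw [he, Int.cast_natCast]; field_simp
    · have : ((a : ℤ) : ℝ) - b * f = b * e := by
        rw [he, Int.cast_natCast]; field_simp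
      rw [this]
      positivity
  rw [h4] at h3
  have h5 : c ^ 4 ≤ ((b : ℝ) ^ ((1 : ℝ) + 1 / 4) * (b * e)) ^ 4 := pow_le_pow_left₀ hc.le h3 4
  have h6 : ((b : ℝ) ^ ((1 : ℝ) + 1 / 4)) ^ 4 = (b : ℝ) ^ 5 := by
    rw [← Real.rpow_natCast, ← Real.rpow_mul hbR.le, ← Real.rpow_natCast]
    norm_num
  rw [mul_pow, h6] at h5
  have h7 : (b : ℝ) ^ 5 * (b * e) ^ 4 = (b : ℝ) ^ 9 * e ^ 4 := by ring
  rw [h7] at h5
  have h8 : (2 : ℝ) ^ T * c ^ 4 ≤ 16 * (q : ℝ) ^ 2 :=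
    (mul_le_mul_of_nonneg_left h5 (by positivity)).trans h1
  have h9 : (2 : ℝ) ^ T0 ≤ 2 ^ T := pow_le_pow_right₀ (by norm_num) hT
  rw [div_lt_iff₀ (by positivity)] at hT0
  have h10 : (2 : ℝ) ^ T0 * c ^ 4 ≤ 2 ^ T * c ^ 4 := mul_le_mul_of_nonneg_right h9 (by positivity)
  linarith

/-- the product is transcendental -/
theorem trans_prod (hp : p.Prime) (hq : q.Prime) (hpq : p ≠ q) :
    Transcendental ℚ ((∑' i, ft p q i) * (∑' i, ft q p i)) := by
  have hrel := relation hp hq hpq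
  set f : ℝ := ∑' i, ft p q i with hf
  set g : ℝ := ∑' i, ft q p i with hg
  have hp2R : (2 : ℝ) ≤ p := by exact_mod_cast hp.two_le
  have hq2R : (2 : ℝ) ≤ q := by exact_mod_cast hq.two_le
  have hp1 : (p : ℝ) - 1 ≠ 0 := by linarith
  have hq1 : (q : ℝ) - 1 ≠ 0 := by linarith
  -- f is transcendental
  have hft : Transcendental ℚ f := by
    intro halg
    have hgalg : IsAlgebraic ℚ g := by
      have h1 : g = (((p : ℚ) + q - 1 : ℚ) : ℝ) * (((q : ℚ) - 1 : ℚ) : ℝ)⁻¹ -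
          ((((p : ℚ) - 1) * ((q : ℚ) - 1)⁻¹ : ℚ) : ℝ) * f := by
        push_cast
        field_simp
        linarith
      rw [h1]
      exact ((isAlgebraic_algebraMap (A := ℝ) ((p : ℚ) + q - 1)).mul
        (isAlgebraic_algebraMap (A := ℝ) ((q : ℚ) - 1)).inv).sub
        ((isAlgebraic_algebraMap (A := ℝ) (((p : ℚ) - 1) * ((q : ℚ) - 1)⁻¹)).mul halg)
    obtain ⟨T1, hT1⟩ := not_good hp hq hpq halg
    obtain ⟨T2, hT2⟩ := not_good hq hp hpq.symm hgalg
    rcases dich hp hq hpq (max T1 T2) with h | h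
    · exact hT1 _ (le_max_left _ _) h
    · exact hT2 _ (le_max_right _ _) h
  -- the polynomial
  let P : Polynomial ℚ := Polynomial.C (-((p : ℚ) - 1) * ((q : ℚ) - 1)⁻¹) * Polynomial.X ^ 2 +
    Polynomial.C (((p : ℚ) + q - 1) * ((q : ℚ) - 1)⁻¹) * Polynomial.X + Polynomial.C 0
  have hlead : (-((p : ℚ) - 1) * ((q : ℚ) - 1)⁻¹) ≠ 0 := by
    have e1 : ((p : ℚ) - 1) ≠ 0 := by
      have : (2 : ℚ) ≤ p := by exact_mod_cast hp.two_le
      linarith
    have e2 : ((q : ℚ) - 1) ≠ 0 := by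
      have : (2 : ℚ) ≤ q := by exact_mod_cast hq.two_le
      linarith
    exact mul_ne_zero (neg_ne_zero.2 e1) (inv_ne_zero e2)
  have hdeg : P.natDegree = 2 := Polynomial.natDegree_quadratic hlead
  have haeval : Polynomial.aeval f P = f * g := by
    have e1 : Polynomial.aeval f P = ((-((p : ℚ) - 1) * ((q : ℚ) - 1)⁻¹ : ℚ) : ℝ) * f ^ 2 +
        ((((p : ℚ) + q - 1) * ((q : ℚ) - 1)⁻¹ : ℚ) : ℝ) * f + 0 := by
      simp [P]
    rw [e1]
    push_cast
    field_simp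
    linear_combination (-f) * hrel
  rw [← haeval]
  refine Transcendental.aeval hft P (by rw [hdeg]; norm_num) ?_
  rw [Polynomial.leadingCoeff_quadratic hlead]
  exact mem_nonZeroDivisors_of_ne_zero hlead

end

end Pool.Agent.TH634.LC
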